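import Pool.Agent.Helper76.LD7.Num
import Pool.Agent.Helper68.LD7.TTB1
import Pool.Agent.Helper94.LD7.TTA
import Pool.Agent.Helper94.LD7.SH
import Pool.Agent.Helper11.LD7.NuT
import Pool.Agent.Helper59.LD6.H3

/-!
# LD7, block CLS7: from the sums to the boxes
-/

set_option autoImplicit false

namespace Pool.Agent.Helper59.LD7

open Finset
open Pool.Agent.Helper41.LD7
open Pool.Agent.Helper41.LD5 (nuP fp pwf)
open Pool.Agent.Helper41.LD6 (hr Qs)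
open Pool.Agent.Helper76.LD7 (num_K num_Z num_le num_pow)
open Pool.Agent.Helper68.LD7 (Tt_mono Tt_ge T_start)
open Pool.Agent.Helper94.LD7 (fp_nonneg shift7)
open Pool.Agent.Helper11.LD7 (nu_T)
open Pool.Agent.Helper59.LD6 (num hr_num hf box_disc)

/-- the box discrepancy of an `s`-dimensional sequence from the sums of the products of Haar functions -/
theorem disc7 {s K : ℕ} {n₁ n₂ : ℕ} (hn : n₁ ≤ n₂) (y : ℕ → Fin s → ℝ) {Em : ℝ} (hE : 0 ≤ Em)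
    (h : ∀ q : Fin s → ℕ, (∀ i, q i < 2 ^ K) → (∃ i, q i ≠ 0) → |∑ n ∈ Finset.Ico n₁ n₂, ∏ i : Fin s, hr (q i) (y n i)| ≤ Em)
    (α γ : Fin s → ℝ) (hαγ : ∀ i, 0 ≤ α i ∧ α i ≤ γ i ∧ γ i ≤ 1) :
    |(((Finset.Ico n₁ n₂).filter fun n : ℕ => ∀ i : Fin s, α i ≤ Int.fract (y n i) ∧ Int.fract (y n i) < γ i).card : ℝ) -
      ((n₂ : ℝ) - n₁) * ∏ i, (γ i - α i)| ≤ ((K : ℝ) + 1) ^ s * Em + 2 * s * ((n₂ : ℝ) - n₁) * (1 / 2) ^ K := by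
  have h1 := box_disc (K := K) (Finset.Ico n₁ n₂) y hE (fun q hq0 hq => by
    have h2 := h (fun i => num (q i)) (fun i => ?_) ?_
    · refine le_of_eq_of_le ?_ h2
      congr 1
      refine sum_congr rfl fun n _ => prod_congr rfl fun i _ => ?_
      rw [hr_num fun k j hkj => (hq i k j hkj).2]
    · rcases hqi : q i with _ | ⟨k, j⟩
      · simp [num]
      · obtain ⟨h3, h4⟩ := hq i k j hqi
        have h5 : 2 ^ (k + 1) ≤ 2 ^ K := Nat.pow_le_pow_right (by norm_num) h3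
        rw [pow_succ] at h5
        simp only [num, Option.elim]
        omega
    · obtain ⟨i, hi⟩ := hq0
      refine ⟨i, ?_⟩
      rcases hqi : q i with _ | ⟨k, j⟩
      · exact absurd hqi hi
      · have := Nat.one_le_two_pow (n := k)
        simp only [num, Option.elim]
        omega) (α := α) (β := γ) (fun i => (hαγ i).1) (fun i => (hαγ i).2.1) (fun i => (hαγ i).2.2)
  have h2 : ((Finset.Ico n₁ n₂).card : ℝ) = (n₂ : ℝ) - n₁ := by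
    rw [Nat.card_Ico, Nat.cast_sub hn]
  rw [h2, Fintype.card_fin] at h1
  convert h1

section

variable {F : Pm} {K : ℕ} {a₀ ℓst a ℓ x : ℝ}

/-- the numbers -/
theorem cls_num {X d Z C₁ K s Q Δ ν : ℕ} {Em S0 : ℝ} (hK : 1 ≤ K) (hZ : Z ≤ K) (hQ1 : 1 ≤ Q) (hXd : (X + 1) * (X + d + 4) ≤ Z) (hXC : X * C₁ ≤ Z) (hQX : Q ≤ X)
    (hs : s ≤ d + 1)
    (hΔ : Δ = X * (C₁ * ((d + 4) * K) + 1) + Q)
    (hEm : Em = Q * (131072 * X * (d + 4) * Q * (K : ℝ) ^ 4 * (4 * (d + 1) * (K : ℝ)) ^ s) + 2 * (Δ + d))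
    (hν : (ν : ℝ) ≤ 2 ^ K * (X * (K : ℝ) ^ 3) + Δ)
    (hS0 : S0 ≤ ((K : ℝ) + 1) ^ s * Em + 2 * s * ν * (1 / 2) ^ K) :
    S0 ≤ (2 ^ 30 * (8 * (d + 1)) ^ (d + 1) * Z * Q ^ 2 : ℕ) * (K : ℝ) ^ (2 * s + 4) := by
  have hK1 : (1 : ℝ) ≤ K := by exact_mod_cast hK
  have hXd' : ((X : ℝ) + 1) * (X + d + 4) ≤ Z := by exact_mod_cast hXd
  have hXC' : (X : ℝ) * C₁ ≤ Z := by exact_mod_cast hXC
  have hZ' : (Z : ℝ) ≤ K := by exact_mod_cast hZ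
  have hs' : (s : ℝ) ≤ d + 1 := by exact_mod_cast hs
  have hQ1' : (1 : ℝ) ≤ Q := by exact_mod_cast hQ1
  have hQX' : (Q : ℝ) ≤ X := by exact_mod_cast hQX
  have hX0 : (0 : ℝ) ≤ X := Nat.cast_nonneg _
  have hd0 : (0 : ℝ) ≤ d := Nat.cast_nonneg _
  have hs0 : (0 : ℝ) ≤ s := Nat.cast_nonneg _
  have hC0 : (0 : ℝ) ≤ C₁ := Nat.cast_nonneg _
  have hZ0 : (0 : ℝ) ≤ Z := Nat.cast_nonneg _
  have hΔ0 : (0 : ℝ) ≤ Δ := Nat.cast_nonneg _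
  set P : ℝ := (8 * ((d : ℝ) + 1)) ^ (d + 1) * (K : ℝ) ^ (2 * s + 4) with hP
  have b8 : (1 : ℝ) ≤ 8 * ((d : ℝ) + 1) := by linarith
  have p8 : (1 : ℝ) ≤ (8 * ((d : ℝ) + 1)) ^ (d + 1) := one_le_pow₀ b8
  have pK : ∀ j ≤ 2 * s + 4, (K : ℝ) ^ j ≤ (K : ℝ) ^ (2 * s + 4) := fun j hj => pow_le_pow_right₀ hK1 hj
  have hPK : ∀ j ≤ 2 * s + 4, (K : ℝ) ^ j ≤ P := fun j hj => (pK j hj).trans (le_mul_of_one_le_left (by positivity) p8)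
  have hPs : ((K : ℝ) + 1) ^ s ≤ 2 ^ s * (K : ℝ) ^ s := by
    rw [← mul_pow]
    exact pow_le_pow_left₀ (by positivity) (by linarith) s
  have h8 : (8 * ((d : ℝ) + 1)) ^ s ≤ (8 * ((d : ℝ) + 1)) ^ (d + 1) := pow_le_pow_right₀ b8 hs
  have h2 : (2 : ℝ) ^ s ≤ (8 * ((d : ℝ) + 1)) ^ (d + 1) := (pow_le_pow_left₀ (by norm_num) (by linarith) s).trans h8
  have hXZ : (X : ℝ) * (d + 4) ≤ Z := by nlinarith
  have hQQ : (1 : ℝ) ≤ (Q : ℝ) ^ 2 := one_le_pow₀ hQ1'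
  have hPpos : 0 ≤ P := by positivity
  have e1 : ((K : ℝ) + 1) ^ s * (Q * (131072 * X * (d + 4) * Q * (K : ℝ) ^ 4 * (4 * (d + 1) * (K : ℝ)) ^ s)) ≤ 131072 * Z * (Q : ℝ) ^ 2 * P := by
    calc ((K : ℝ) + 1) ^ s * (Q * (131072 * X * (d + 4) * Q * (K : ℝ) ^ 4 * (4 * (d + 1) * (K : ℝ)) ^ s))
        ≤ (2 ^ s * (K : ℝ) ^ s) * (Q * (131072 * X * (d + 4) * Q * (K : ℝ) ^ 4 * (4 * (d + 1) * (K : ℝ)) ^ s)) :=
          mul_le_mul_of_nonneg_right hPs (by positivity)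
      _ = 131072 * (X * (d + 4)) * (Q : ℝ) ^ 2 * ((8 * ((d : ℝ) + 1)) ^ s * (K : ℝ) ^ (2 * s + 4)) := by
          have h84 : (8 * ((d : ℝ) + 1)) ^ s = 2 ^ s * (4 * ((d : ℝ) + 1)) ^ s := by
            rw [← mul_pow]
            congr 1
            ring
          rw [h84, mul_pow (4 * ((d : ℝ) + 1)), pow_add, pow_mul', sq ((K : ℝ) ^ s)]
          ring
      _ ≤ 131072 * Z * (Q : ℝ) ^ 2 * ((8 * ((d : ℝ) + 1)) ^ (d + 1) * (K : ℝ) ^ (2 * s + 4)) := by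
          gcongr
      _ = 131072 * Z * (Q : ℝ) ^ 2 * P := by rw [hP]
  -- the differences of the ranges
  have hΔK : (Δ : ℝ) + d ≤ 4 * Z * (K : ℝ) ^ 2 := by
    rw [hΔ]
    push_cast
    have h3 : ((d : ℝ) + 4) * K ≤ (K : ℝ) ^ 2 := by
      have : (d : ℝ) + 4 ≤ K := by nlinarith
      nlinarith
    have h4 : (X : ℝ) ≤ Z := by nlinarith
    have h5 : (d : ℝ) ≤ Z := by nlinarith
    have h6 : (X : ℝ) * C₁ * ((d + 4) * K) ≤ Z * (K : ℝ) ^ 2 := mul_le_mul hXC' h3 (by positivity) hZ0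
    have h7 : (1 : ℝ) ≤ (K : ℝ) ^ 2 := one_le_pow₀ hK1
    have h8 : (Z : ℝ) ≤ Z * (K : ℝ) ^ 2 := le_mul_of_one_le_right hZ0 h7
    calc (X : ℝ) * (C₁ * ((d + 4) * K) + 1) + Q + d = X * C₁ * ((d + 4) * K) + X + Q + d := by ring
      _ ≤ Z * (K : ℝ) ^ 2 + Z * (K : ℝ) ^ 2 + Z * (K : ℝ) ^ 2 + Z * (K : ℝ) ^ 2 := by linarith
      _ = 4 * Z * (K : ℝ) ^ 2 := by ring
  have e2 : ((K : ℝ) + 1) ^ s * (2 * (Δ + d)) ≤ 8 * Z * (Q : ℝ) ^ 2 * P := by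
    calc ((K : ℝ) + 1) ^ s * (2 * (Δ + d)) ≤ (2 ^ s * (K : ℝ) ^ s) * (2 * (4 * Z * (K : ℝ) ^ 2)) := by gcongr
      _ = 8 * Z * 1 * (2 ^ s * (K : ℝ) ^ (s + 2)) := by ring
      _ ≤ 8 * Z * (Q : ℝ) ^ 2 * ((8 * ((d : ℝ) + 1)) ^ (d + 1) * (K : ℝ) ^ (2 * s + 4)) := by
          have h4 := pK (s + 2) (by omega)
          gcongr
      _ = 8 * Z * (Q : ℝ) ^ 2 * P := by rw [hP]
  have e3 : 2 * s * ν * (1 / 2 : ℝ) ^ K ≤ 10 * Z * (Q : ℝ) ^ 2 * P := by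
    have h3 : (s : ℝ) * X ≤ Z := by nlinarith
    have h30 : (0 : ℝ) < (1 / 2 : ℝ) ^ K := by positivity
    have h31 : (1 / 2 : ℝ) ^ K ≤ 1 := pow_le_one₀ (by norm_num) (by norm_num)
    have h32 : (2 : ℝ) ^ K * (1 / 2 : ℝ) ^ K = 1 := by rw [← mul_pow]; norm_num
    have h33 : (s : ℝ) ≤ K := by nlinarith
    calc 2 * s * ν * (1 / 2 : ℝ) ^ K ≤ 2 * s * (2 ^ K * (X * (K : ℝ) ^ 3) + Δ) * (1 / 2 : ℝ) ^ K := by gcongr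
      _ = 2 * (s * X) * (K : ℝ) ^ 3 * (2 ^ K * (1 / 2 : ℝ) ^ K) + 2 * s * Δ * (1 / 2 : ℝ) ^ K := by ring
      _ = 2 * (s * X) * (K : ℝ) ^ 3 + 2 * s * Δ * (1 / 2 : ℝ) ^ K := by rw [h32, mul_one]
      _ ≤ 2 * Z * (K : ℝ) ^ 3 + 2 * K * (4 * Z * (K : ℝ) ^ 2) * 1 := by
          have h5 : (Δ : ℝ) ≤ 4 * Z * (K : ℝ) ^ 2 := by linarith
          gcongr
      _ = 10 * Z * 1 * (K : ℝ) ^ 3 := by ring
      _ ≤ 10 * Z * (Q : ℝ) ^ 2 * P := by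
          have h4 := hPK 3 (by omega)
          gcongr
  have hEm2 : ((K : ℝ) + 1) ^ s * Em = ((K : ℝ) + 1) ^ s * (Q * (131072 * X * (d + 4) * Q * (K : ℝ) ^ 4 * (4 * (d + 1) * (K : ℝ)) ^ s)) +
      ((K : ℝ) + 1) ^ s * (2 * (Δ + d)) := by rw [hEm, mul_add]
  rw [hEm2] at hS0
  push_cast
  have h9 : 0 ≤ (Z : ℝ) * (Q : ℝ) ^ 2 * P := by positivity
  calc S0 ≤ 131072 * Z * (Q : ℝ) ^ 2 * P + 8 * Z * (Q : ℝ) ^ 2 * P + 10 * Z * (Q : ℝ) ^ 2 * P := by linarith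
    _ ≤ 2 ^ 30 * (Z * (Q : ℝ) ^ 2 * P) := by nlinarith
    _ = _ := by rw [hP]; ring

theorem cls7 (hF : F.Ok) (hK : F.Big K) (S : F.St K a₀ ℓst) (hℓ : 0 < ℓ) (hst : ℓ ≤ ℓst) (hx : x ∈ Set.Icc a₀ (a₀ + ℓst))
    {s g : ℕ} (hg : 1 ≤ g) (hgQ : g ∣ F.Q) {κ : Fin s → ℕ} (hκ : Function.Injective κ) (hκd : ∀ i, κ i ≤ F.d)
    (hT : F.T K a₀ ℓst ℓ ≤ 2 ^ K * (F.X * K ^ 3))
    (hsum : ∀ u ∈ F.Is K, |∑ j ∈ Finset.range (F.T K a₀ ℓst ℓ) with (F.n₀ K a₀ ℓst + j) % F.Q = u.1, ∏ i : Fin (F.d + 1), hr (u.2 i) (F.U K a₀ ℓst (j + i) x)| ≤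
      131072 * F.X * (F.d + 4) * F.Q * (K : ℝ) ^ 4 * (4 * (F.d + 1) * (K : ℝ)) ^ sp u.2)
    (α γ : Fin s → ℝ) (hαγ : ∀ i, 0 ≤ α i ∧ α i ≤ γ i ∧ γ i ≤ 1) :
    |(((Finset.Ico (nuP F.A₀ F.P g x ℓst) (nuP F.A₀ F.P g x ℓ)).filter fun n : ℕ =>
        ∀ i : Fin s, α i ≤ Int.fract (pwf F.A₀ F.c F.P (g * n + κ i) x) ∧ Int.fract (pwf F.A₀ F.c F.P (g * n + κ i) x) < γ i).card : ℝ) -
      ((nuP F.A₀ F.P g x ℓ : ℝ) - nuP F.A₀ F.P g x ℓst) * ∏ i, (γ i - α i)| ≤ cF F * (K : ℝ) ^ (2 * s + 4) := by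
  have hK12 := num_K hK
  obtain ⟨-, -, hZK⟩ := num_Z hK
  obtain ⟨hXZ1, -, -, -, -, -, -, -, -, -, hXd, hXC, -, -, -, hQX⟩ := num_le hF
  have hK1 : (1 : ℝ) ≤ K := by
    have : 1 ≤ K := by omega
    exact_mod_cast this
  have hx1 : 1 < x := hF.h1.trans_le (S.lo.trans hx.1)
  have hgQ' : g ≤ F.Q := Nat.le_of_dvd hF.hQ hgQ
  have hgX : g ≤ F.X := hgQ'.trans hQX
  have hs : s ≤ F.d + 1 := by
    have h1 := Fintype.card_le_of_injective (fun i : Fin s => (⟨κ i, Nat.lt_succ_of_le (hκd i)⟩ : Fin (F.d + 1)))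
      (fun i j hij => hκ (by simpa using hij))
    simpa using h1
  -- the two intervals of times
  have hT2 : F.T K a₀ ℓst ℓ ≤ 2 ^ (2 * K) := by
    refine hT.trans ?_
    have h1 : F.X * K ^ 3 ≤ 2 ^ K := by
      have h2 := (num_pow hF hK).1
      have h3 : F.X ≤ K := by omega
      calc F.X * K ^ 3 ≤ K * K ^ 3 := Nat.mul_le_mul_right _ h3
        _ = K ^ 4 := by ring
        _ ≤ K ^ 20 := Nat.pow_le_pow_right (by omega) (by norm_num)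
        _ ≤ 2 ^ K := h2
    calc 2 ^ K * (F.X * K ^ 3) ≤ 2 ^ K * 2 ^ K := Nat.mul_le_mul_left _ h1
      _ = 2 ^ (2 * K) := by rw [← pow_add]; congr 1; omega
  have hTst : F.T K a₀ ℓst ℓst ≤ 2 ^ (2 * K) := by rw [T_start]; exact Nat.zero_le _
  obtain ⟨n1, n2⟩ := nu_T hF hK S hℓ hst hT2 hx hg hgX
  obtain ⟨m1, m2⟩ := nu_T hF hK S S.pos le_rfl hTst hx hg hgX
  have hN : F.n₀ K a₀ ℓst ≤ Tt F.A₀ F.P (F.Th K) a₀ ℓ := Tt_mono hF S.lo hℓ hst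
  have hn0 : Tt F.A₀ F.P (F.Th K) a₀ ℓst = F.n₀ K a₀ ℓst := rfl
  rw [hn0] at m1 m2
  set N₁ := F.n₀ K a₀ ℓst with hN₁
  set N₂ := Tt F.A₀ F.P (F.Th K) a₀ ℓ with hN₂
  set T := F.T K a₀ ℓst ℓ with hTdef
  have hTN : N₂ = N₁ + T := by
    have : T = N₂ - N₁ := rfl
    omega
  set Δ := F.X * (F.C₁ * F.E K + 1) + F.Q with hΔ
  have hνν : nuP F.A₀ F.P g x ℓst ≤ nuP F.A₀ F.P g x ℓ := by
    have hne : {n : ℕ | 1 ≤ fp F.A₀ F.P (g * n) x * ℓ}.Nonempty := by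
      refine ⟨Tt F.A₀ F.P 1 x ℓ, ?_⟩
      rw [Set.mem_ofPred_eq]
      exact Tt_ge hF (S.lo.trans hx.1) hℓ (Nat.le_mul_of_pos_left _ hg)
    unfold nuP
    refine Nat.sInf_le ?_
    rw [Set.mem_ofPred_eq]
    refine (show (1 : ℝ) ≤ _ from Nat.sInf_mem hne).trans ?_
    exact mul_le_mul_of_nonneg_left hst (fp_nonneg hF.hA (by linarith))
  set ν₁ := nuP F.A₀ F.P g x ℓst with hν₁
  set ν₂ := nuP F.A₀ F.P g x ℓ with hν₂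
  -- the sums
  set Em : ℝ := 131072 * F.X * (F.d + 4) * F.Q * (K : ℝ) ^ 4 * (4 * (F.d + 1) * (K : ℝ)) ^ s with hEm
  have hEm0 : 0 ≤ Em := by positivity
  have hsum2 : ∀ u < F.Q, ∀ q ∈ Qs F.d K, sp q ≤ s → |∑ n ∈ Finset.Ico N₁ N₂ with n % F.Q = u, ∏ i : Fin (F.d + 1), hr (q i) (pwf F.A₀ F.c F.P (n + i) x)| ≤ Em := by
    intro u hu q hq hqs
    have h1 := hsum (u, q) (Finset.mem_product.2 ⟨Finset.mem_range.2 hu, hq⟩)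
    have h2 : ∑ n ∈ Finset.Ico N₁ N₂ with n % F.Q = u, ∏ i : Fin (F.d + 1), hr (q i) (pwf F.A₀ F.c F.P (n + i) x) =
        ∑ j ∈ Finset.range T with (N₁ + j) % F.Q = u, ∏ i : Fin (F.d + 1), hr (q i) (F.U K a₀ ℓst (j + i) x) := by
      rw [Finset.sum_filter, Finset.sum_filter, hTN, Finset.sum_Ico_eq_sum_range, Nat.add_sub_cancel_left]
      refine sum_congr rfl fun j _ => ?_
      congr 1
      refine prod_congr rfl fun i _ => ?_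
      unfold Pm.U
      rw [add_assoc]
    rw [h2]
    refine h1.trans ?_
    rw [hEm]
    have hd0 : (0 : ℝ) ≤ F.d := Nat.cast_nonneg _
    have h3 : (4 * ((F.d : ℝ) + 1) * (K : ℝ)) ^ sp q ≤ (4 * ((F.d : ℝ) + 1) * (K : ℝ)) ^ s := by
      refine pow_le_pow_right₀ ?_ hqs
      nlinarith
    exact mul_le_mul_of_nonneg_left h3 (by positivity)
  have hΔ' : Δ = F.X * (F.C₁ * ((F.d + 4) * K) + 1) + F.Q := by
    rw [hΔ, Pm.E]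
  have hb1 : g * ν₁ ≤ N₁ + Δ := by omega
  have hb2 : N₁ ≤ g * ν₁ + Δ := by omega
  have hb3 : g * ν₂ ≤ N₂ + Δ := by omega
  have hb4 : N₂ ≤ g * ν₂ + Δ := by omega
  clear_value Δ
  have hEmp : 0 ≤ (F.Q : ℝ) * Em + 2 * ((Δ : ℝ) + (F.d : ℝ)) := by
    have h1 : (0 : ℝ) ≤ F.Q := Nat.cast_nonneg _
    have h2 : (0 : ℝ) ≤ Δ := Nat.cast_nonneg _
    have h3 : (0 : ℝ) ≤ F.d := Nat.cast_nonneg _
    have h4 := mul_nonneg h1 hEm0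
    linarith
  have hq7 : ∀ q : Fin s → ℕ, (∀ i, q i < 2 ^ K) → (∃ i, q i ≠ 0) →
      |∑ n ∈ Finset.Ico ν₁ ν₂, ∏ i : Fin s, hr (q i) (pwf F.A₀ F.c F.P (g * n + κ i) x)| ≤ (F.Q : ℝ) * Em + 2 * ((Δ : ℝ) + (F.d : ℝ)) :=
    fun q hq hq0 => shift7 hg hgQ hF.hQ hκ hκd hN hνν hb1 hb2 hb3 hb4 (fun n => pwf F.A₀ F.c F.P n x) hEm0 hsum2 hq hq0
  have hdisc := disc7 (K := K) hνν (fun n i => pwf F.A₀ F.c F.P (g * n + κ i) x) hEmp hq7 α γ hαγ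
  have hνr : ((ν₂ - ν₁ : ℕ) : ℝ) = (ν₂ : ℝ) - ν₁ := Nat.cast_sub hνν
  unfold cF
  refine cls_num (X := F.X) (d := F.d) (Z := F.Z) (C₁ := F.C₁) (K := K) (s := s) (Q := F.Q) (ν := ν₂ - ν₁) (Δ := Δ)
    (Em := (F.Q : ℝ) * Em + 2 * ((Δ : ℝ) + (F.d : ℝ))) (by omega) hZK hF.hQ hXd hXC hQX hs hΔ' (by rw [hEm]) ?_ ?_
  · have h1 : ν₂ - ν₁ ≤ T + Δ := by
      have h2 : g * ν₂ ≤ N₂ + g := n1
      have h4 : g * (ν₂ - ν₁) ≤ T + Δ := by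
        rw [Nat.mul_sub]
        omega
      exact (Nat.le_mul_of_pos_left _ hg).trans h4
    have h5 : ((ν₂ - ν₁ : ℕ) : ℝ) ≤ T + Δ := by exact_mod_cast h1
    have h6 : (T : ℝ) ≤ 2 ^ K * (F.X * (K : ℝ) ^ 3) := by exact_mod_cast hT
    linarith
  · rw [hνr]
    exact hdisc

end

end Pool.Agent.Helper59.LD7
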